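import Mathlib

namespace Pool.Agent.H.MP_73989e_co
open Finset MvPolynomial

lemma pre (K : Type) [Fintype K] [DecidableEq K] [Nonempty K] (s : ℕ) : ∃ N, ∀ (α : Type)
    [DecidableEq α] (S : Finset α) (c : Sym2 α → K), N ≤ S.card → ∃ T ⊆ S, T.card = s ∧
      ∃ k : α → K, ∀ x ∈ T, ∀ y ∈ T, x ≠ y → c s(x, y) = k x ∨ c s(x, y) = k y := by
  induction s with
  | zero => exact ⟨0, fun α _ S c _ => ⟨∅, by simp, rfl, fun _ => Classical.arbitrary K, by simp⟩⟩
  | succ s ih =>
    obtain ⟨N, hN⟩ := ih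
    refine ⟨Fintype.card K * N + 1, fun α _ S c hS => ?_⟩
    obtain ⟨v, hv⟩ : S.Nonempty := card_pos.1 (by omega)
    obtain ⟨j, -, hj⟩ := exists_le_card_fiber_of_mul_le_card_of_maps_to (s := S.erase v)
      (t := univ) (f := fun u => c s(v, u)) (n := N) (fun _ _ => mem_univ _) univ_nonempty
      (by rw [card_erase_of_mem hv, card_univ]; omega)
    obtain ⟨T, hT, hc, k, hk⟩ := hN α _ c hj
    have hvT : v ∉ T := fun h => by simpa using (mem_filter.1 (hT h)).1
    refine ⟨insert v T, insert_subset hv fun x hx => mem_of_mem_erase (mem_filter.1 (hT hx)).1,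
      by rw [card_insert_of_notMem hvT, hc], Function.update k v j, fun x hx y hy hxy => ?_⟩
    rcases mem_insert.1 hx with rfl | hx' <;> rcases mem_insert.1 hy with rfl | hy'
    · exact absurd rfl hxy
    · exact Or.inl (by simpa using (mem_filter.1 (hT hy')).2)
    · exact Or.inr (by rw [Sym2.eq_swap]; simpa using (mem_filter.1 (hT hx')).2)
    · rw [Function.update_of_ne (ne_of_mem_of_not_mem hx' hvT),
        Function.update_of_ne (ne_of_mem_of_not_mem hy' hvT)]
      exact hk x hx' y hy' hxy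

lemma ramsey (K : Type) [Fintype K] [DecidableEq K] [Nonempty K] (m : ℕ) : ∃ N, ∀ (α : Type)
    [Fintype α] [DecidableEq α] (c : Sym2 α → K), N ≤ Fintype.card α → ∃ M : Finset α,
      M.card = m ∧ ∃ a, ∀ x ∈ M, ∀ y ∈ M, x ≠ y → c s(x, y) = a := by
  obtain ⟨N, hN⟩ := pre K (Fintype.card K * m)
  refine ⟨N, fun α _ _ c h => ?_⟩
  obtain ⟨T, -, hc, k, hk⟩ := hN α univ c h
  obtain ⟨a, -, ha⟩ := exists_le_card_fiber_of_mul_le_card_of_maps_to (s := T)
    (t := univ) (f := k) (n := m) (fun _ _ => mem_univ _) univ_nonempty (by rw [hc, card_univ])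
  obtain ⟨M, hM, hm⟩ := exists_subset_card_eq ha
  refine ⟨M, hm, a, fun x hx y hy hxy => ?_⟩
  have p := mem_filter.1 (hM hx)
  have q := mem_filter.1 (hM hy)
  rcases hk x p.1 y q.1 hxy with h | h
  exacts [h.trans p.2, h.trans q.2]

lemma pack {X : Type} [DecidableEq X] (r m : ℕ) (P : (Fin r → X) → Prop) :
    (∃ g : Fin m × Fin r → X, Function.Injective g ∧ ∀ i, P fun j => g (i, j)) ∨
    ∃ W : Finset X, W.card ≤ m * r ∧ ∀ h : Fin r → X, Function.Injective h → P h →
      ∃ j, h j ∈ W := by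
  induction m with
  | zero => exact Or.inl ⟨fun q => q.1.elim0, fun q => q.1.elim0, fun i => i.elim0⟩
  | succ m ih =>
    rcases ih with ⟨g, hg, hP⟩ | ⟨W, hW, h⟩
    · by_cases hc : ∀ h : Fin r → X, Function.Injective h → P h → ∃ j, h j ∈ univ.image g
      · refine Or.inr ⟨_, card_image_le.trans ?_, hc⟩
        simp only [card_univ, Fintype.card_prod, Fintype.card_fin]
        nlinarith
      push Not at hc
      obtain ⟨h, hi, hp, hn⟩ := hc
      refine Or.inl ⟨fun q => Fin.cases (h q.2) (fun i => g (i, q.2)) q.1, ?_, fun i => ?_⟩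
      · rintro ⟨i, j⟩ ⟨i', j'⟩
        refine Fin.cases ?_ (fun i => ?_) i <;> refine Fin.cases ?_ (fun i' => ?_) i' <;>
          simp only [Fin.cases_zero, Fin.cases_succ] <;> intro e
        · rw [hi e]
        · exact absurd (mem_image.2 ⟨_, mem_univ _, e.symm⟩) (hn j)
        · exact absurd (mem_image.2 ⟨_, mem_univ _, e⟩) (hn j')
        · obtain ⟨rfl, rfl⟩ := Prod.mk.inj (hg e); rfl
      · refine Fin.cases ?_ (fun i => ?_) i
        · exact hp
        · exact hP i
    · exact Or.inr ⟨W, hW.trans (by nlinarith), h⟩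

variable {p : ℕ} [Fact p.Prime]

lemma quad {V ι : Type} [Fintype V] [DecidableEq V] (E : Finset ι) (a b : ι → V)
    (g : ι → Bool → Bool → ZMod p) (h0 : ∑ e ∈ E, g e false false = 0) :
    ∃ S : Finset V, Sᶜ.card ≤ 2 * p ∧ ∑ e ∈ E, g e (a e ∈ S) (b e ∈ S) = 0 := by
  classical
  have hp := (Fact.out : p.Prime)
  obtain ⟨S, hS, hm⟩ := exists_max_image
    (univ.filter fun S : Finset V => ∑ e ∈ E, g e (a e ∈ S) (b e ∈ S) = 0) card
    ⟨∅, by simpa using h0⟩
  refine ⟨S, ?_, (mem_filter.1 hS).2⟩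
  by_contra hc
  let Y : V → MvPolynomial (Sᶜ : Finset V) (ZMod p) := fun v =>
    if h : v ∈ Sᶜ then X ⟨v, h⟩ ^ (p - 1) else 1
  let L : Bool → V → MvPolynomial (Sᶜ : Finset V) (ZMod p) := fun t v => cond t (Y v) (1 - Y v)
  have dY : ∀ v, (Y v).totalDegree ≤ p - 1 := fun v => by
    simp only [Y]
    split_ifs
    · exact (totalDegree_X_pow ..).le
    · simp
  have dL : ∀ t v, (L t v).totalDegree ≤ p - 1 := by
    rintro (_ | _) v
    · exact (totalDegree_sub _ _).trans (max_le (by simp) (dY v))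
    · exact dY v
  let P : MvPolynomial (Sᶜ : Finset V) (ZMod p) :=
    ∑ e ∈ E, ∑ s : Bool, ∑ t : Bool, g e s t • (L s (a e) * L t (b e))
  have dP : P.totalDegree < Fintype.card (Sᶜ : Finset V) := by
    refine lt_of_le_of_lt (b := p - 1 + (p - 1)) ?_ (by rw [Fintype.card_coe]; omega)
    refine totalDegree_finsetSum_le fun e _ => totalDegree_finsetSum_le fun s _ =>
      totalDegree_finsetSum_le fun t _ => (totalDegree_smul_le ..).trans
        ((totalDegree_mul _ _).trans (Nat.add_le_add (dL _ _) (dL _ _)))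
  let T : ((Sᶜ : Finset V) → ZMod p) → Finset V := fun x =>
    univ.filter fun v => ∀ h : v ∈ Sᶜ, x ⟨v, h⟩ ≠ 0
  have eY : ∀ x v, eval x (Y v) = if v ∈ T x then 1 else 0 := by
    intro x v
    by_cases h : v ∈ S
    · simp [Y, T, h]
    · simp [Y, T, h, ZMod.pow_card_sub_one]
  have eP : ∀ x, eval x P = ∑ e ∈ E, g e (a e ∈ T x) (b e ∈ T x) := by
    intro x
    simp only [P, map_sum]
    refine sum_congr rfl fun e _ => ?_
    by_cases h1 : a e ∈ T x <;> by_cases h2 : b e ∈ T x <;> simp [L, eY, h1, h2]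
  have T0 : T 0 = S := by ext v; simp [T]
  let z : {x // eval x P = 0} := ⟨0, by rw [eP, T0]; exact (mem_filter.1 hS).2⟩
  obtain ⟨x, hx⟩ := Fintype.exists_ne_of_one_lt_card (hp.one_lt.trans_le <|
    Nat.le_of_dvd (@Fintype.card_pos _ _ ⟨z⟩) (char_dvd_card_solutions p dP)) z
  rw [← Subtype.coe_ne_coe, Function.ne_iff] at hx
  obtain ⟨v, hv⟩ := hx
  refine absurd (hm (T x.1) (mem_filter.2 ⟨mem_univ _, by rw [← eP]; exact x.2⟩))
    (not_le.2 (card_lt_card ⟨fun u hu => by simp [T, hu], fun h => ?_⟩))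
  exact mem_compl.1 v.2 (h (mem_filter.2 ⟨mem_univ _, fun _ => hv⟩))

lemma sums {ι : Type} [DecidableEq ι] (d : ι → ZMod p) (I : Finset ι) (h : ∀ i ∈ I, d i ≠ 0) :
    min p (I.card + 1) ≤ (I.powerset.image fun J => ∑ i ∈ J, d i).card := by
  open Pointwise in
  induction I using Finset.induction_on with
  | empty => simp
  | insert i I hi ih =>
    have ih := ih fun j hj => h j (mem_insert_of_mem hj)
    have c := ZMod.cauchy_davenport (Fact.out : p.Prime)
      (s := I.powerset.image fun J => ∑ i ∈ J, d i) (t := {0, d i}) ⟨_, mem_image.2 ⟨∅, by simp, rfl⟩⟩ (by simp)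
    rw [card_pair (h i (mem_insert_self _ _)).symm] at c
    rw [card_insert_of_notMem hi]
    refine le_trans (by omega) (c.trans (card_le_card fun x hx => ?_))
    obtain ⟨y, hy, z, hz, rfl⟩ := mem_add.1 hx
    obtain ⟨J, hJ, rfl⟩ := mem_image.1 hy
    rw [mem_powerset] at hJ
    rcases mem_insert.1 hz with rfl | hz
    · exact mem_image.2 ⟨J, mem_powerset.2 (hJ.trans (subset_insert _ _)), by simp⟩
    · refine mem_image.2 ⟨insert i J, mem_powerset.2 (insert_subset_insert _ hJ), ?_⟩
      rw [sum_insert fun h => hi (hJ h), mem_singleton.1 hz, add_comm]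

lemma half {ι : Type} [Fintype ι] [DecidableEq ι] (D : ι → Finset ι → ZMod p)
    (h : ∀ i K, i ∉ K → D i (insert i K) ≠ D i K) :
    ∃ K, Fintype.card ι ≤ 2 * (univ.filter fun i => D i K ≠ 0).card := by
  have k : ∀ i, (univ.filter fun K => D i K = 0).card ≤ (univ.filter fun K => D i K ≠ 0).card := by
    intro i
    refine card_le_card_of_injOn (fun K => symmDiff K {i}) (fun K hK => ?_)
      fun K _ L _ e => symmDiff_left_injective _ e
    have hK : D i K = 0 := by simpa using hK
    simp only [coe_filter, mem_univ, true_and, Set.mem_ofPred_eq]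
    by_cases hi : i ∈ K
    · have : symmDiff K {i} = K.erase i := by ext; simp [mem_symmDiff]; grind
      have q := h i (K.erase i) (notMem_erase _ _)
      rw [insert_erase hi, hK] at q
      exact this ▸ q.symm
    · have : symmDiff K {i} = insert i K := by ext; simp [mem_symmDiff]; grind
      exact this ▸ hK ▸ h i K hi
  obtain ⟨K, -, hK⟩ := exists_le_of_sum_le (s := (univ : Finset (Finset ι))) univ_nonempty
    (f := fun K => (univ.filter fun i => D i K = 0).card)
    (g := fun K => (univ.filter fun i => D i K ≠ 0).card) (by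
      simp only [card_filter] at k ⊢
      rw [sum_comm, sum_comm (f := fun K i => if D i K ≠ 0 then 1 else 0)]
      exact sum_le_sum fun i _ => k i)
  have := card_filter_add_card_filter_not (s := univ) fun i => D i K = 0
  rw [card_univ] at this
  exact ⟨K, by simp only [ne_eq] at hK ⊢; omega⟩

end Pool.Agent.H.MP_73989e_co
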