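import Pool.Agent.H.MP_73989e_co.A

namespace Pool.Agent.H.MP_73989e_co
open Finset

variable {p : ℕ} [Fact p.Prime] {V X : Type} [Fintype V] [DecidableEq V] [Fintype X] [DecidableEq X]
  (G : SimpleGraph V) [DecidableRel G.Adj] (C : Sym2 X → ZMod p)

lemma injOn_ex [Nonempty X] (S : Finset V) (M : Finset X) (h : S.card ≤ M.card) :
    ∃ f : V → X, (∀ v ∈ S, f v ∈ M) ∧ Set.InjOn f S := by
  obtain ⟨f, a, b⟩ := S.finite_toSet.exists_injOn_of_encard_le (t := (M : Set X))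
    (by simpa [Set.encard_coe_eq_coe_finsetCard] using h)
  exact ⟨f, fun v hv => a hv, b⟩

lemma neutral (T : Finset V) (M A : Finset X) (hM : T.card + 2 * p ≤ M.card)
    (hA : Fintype.card V ≤ A.card) (hd : Disjoint M A) (h0 : ∀ x ∈ M, ∀ y ∈ M, C s(x, y) = 0)
    (h : (∀ u v, G.Adj u v → u ∈ T ∨ v ∈ T) ∨
      ∀ z ∈ A, ∀ x ∈ M, ∀ y ∈ M, C s(x, z) = C s(y, z)) :
    ∃ φ : V → X, Function.Injective φ ∧ ∑ e ∈ G.edgeFinset, C (e.map φ) = 0 := by
  have hp := (Fact.out : p.Prime).pos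
  obtain ⟨x0, hx0⟩ : M.Nonempty := card_pos.1 (by omega)
  have : Nonempty X := ⟨x0⟩
  obtain ⟨ψ, ψ1, ψ2⟩ := injOn_ex univ A hA
  obtain ⟨M1, m1, m2⟩ := exists_subset_card_eq (s := M) (n := T.card) (by omega)
  obtain ⟨τ, τ1, τ2⟩ := injOn_ex T M1 m2.ge
  let pos : V → Bool → X := fun v b => if v ∈ T then τ v else if b then ψ v else x0
  obtain ⟨S, hS, hz⟩ := quad G.edgeFinset (fun e => e.out.1) (fun e => e.out.2)
    (fun e s t => C s(pos e.out.1 s, pos e.out.2 t)) (sum_eq_zero fun e _ => h0 _ (by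
      simp only [pos]; split_ifs with h; exacts [m1 (τ1 _ h), by simp at *, hx0]) _ (by
      simp only [pos]; split_ifs with h; exacts [m1 (τ1 _ h), by simp at *, hx0]))
  obtain ⟨ρ, ρ1, ρ2⟩ := injOn_ex Sᶜ (M \ M1) (by rw [card_sdiff_of_subset m1]; omega)
  let φ : V → X := fun v => if v ∈ T then τ v else if v ∈ S then ψ v else ρ v
  have k : ∀ v, (v ∈ T ∧ φ v = τ v ∧ φ v ∈ M1 ∧ φ v ∈ M ∧ pos v (v ∈ S) = φ v) ∨
      (v ∉ T ∧ φ v = ψ v ∧ φ v ∈ A ∧ φ v ∉ M ∧ φ v ∉ M1 ∧ pos v (v ∈ S) = φ v) ∨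
      (v ∉ T ∧ v ∈ Sᶜ ∧ φ v = ρ v ∧ φ v ∈ M ∧ φ v ∉ M1 ∧ pos v (v ∈ S) ∈ M) := by
    intro v
    by_cases a : v ∈ T
    · exact Or.inl (by simp [φ, pos, a, τ1 v a, m1 (τ1 v a)])
    by_cases b : v ∈ S
    · have := disjoint_right.1 hd (ψ1 v (mem_univ _))
      exact Or.inr (Or.inl (by simpa [φ, pos, a, b, ψ1 v, this] using fun h => this (m1 h)))
    · have := mem_sdiff.1 (ρ1 v (mem_compl.2 b))
      exact Or.inr (Or.inr (by simp [φ, pos, a, b, this, hx0]))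
  refine ⟨φ, fun u v e => ?_, Eq.trans (sum_congr rfl fun e he => ?_) hz⟩
  · rcases k u with a | a | a <;> rcases k v with b | b | b
    · exact τ2 a.1 b.1 (a.2.1.symm.trans (e.trans b.2.1))
    · exact absurd (e ▸ a.2.2.1) b.2.2.2.2.1
    · exact absurd (e ▸ a.2.2.1) b.2.2.2.2.1
    · exact absurd (e ▸ b.2.2.1) a.2.2.2.2.1
    · exact ψ2 (mem_univ u) (mem_univ v) (a.2.1.symm.trans (e.trans b.2.1))
    · exact absurd (e ▸ b.2.2.2.1) a.2.2.2.1
    · exact absurd (e ▸ b.2.2.1) a.2.2.2.2.1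
    · exact absurd (e ▸ a.2.2.2.1) b.2.2.2.1
    · exact ρ2 a.2.1 b.2.1 (a.2.2.1.symm.trans (e.trans b.2.2.1))
  · have ee : s(e.out.1, e.out.2) = e := e.out_eq
    have ad : G.Adj e.out.1 e.out.2 := by
      rw [← SimpleGraph.mem_edgeSet, ee]; exact SimpleGraph.mem_edgeFinset.1 he
    nth_rewrite 1 [← ee]
    generalize e.out.1 = u at *
    generalize e.out.2 = v at *
    rw [Sym2.map_mk]
    rcases k u with a | a | a <;> rcases k v with b | b | b
    · rw [a.2.2.2.2, b.2.2.2.2]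
    · rw [a.2.2.2.2, b.2.2.2.2.2]
    · rw [a.2.2.2.2, h0 _ a.2.2.2.1 _ b.2.2.2.1, h0 _ a.2.2.2.1 _ b.2.2.2.2.2]
    · rw [a.2.2.2.2.2, b.2.2.2.2]
    · rw [a.2.2.2.2.2, b.2.2.2.2.2]
    · rw [a.2.2.2.2.2, Sym2.eq_swap, Sym2.eq_swap (a := φ u)]
      exact (h.resolve_left fun h => (h u v ad).elim a.1 b.1) _ a.2.2.1 _ b.2.2.2.1 _ b.2.2.2.2.2
    · rw [b.2.2.2.2, h0 _ a.2.2.2.1 _ b.2.2.2.1, h0 _ a.2.2.2.2.2 _ b.2.2.2.1]
    · rw [b.2.2.2.2.2]
      exact (h.resolve_left fun h => (h u v ad).elim a.1 b.1) _ b.2.2.1 _ a.2.2.2.1 _ a.2.2.2.2.2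
    · rw [h0 _ a.2.2.2.1 _ b.2.2.2.1, h0 _ a.2.2.2.2.2 _ b.2.2.2.2.2]

lemma flip (φ φ' : V → X) (v : V) (h : ∀ u, u ≠ v → φ' u = φ u) :
    ∑ e ∈ G.edgeFinset, C (e.map φ') = ∑ e ∈ G.edgeFinset, C (e.map φ) +
      ∑ u ∈ G.neighborFinset v, (C s(φ' v, φ u) - C s(φ v, φ u)) := by
  have e1 : G.edgeFinset.filter (v ∈ ·) = (G.neighborFinset v).image fun u => s(v, u) := by
    ext e
    simp only [mem_filter, SimpleGraph.mem_edgeFinset, mem_image, SimpleGraph.mem_neighborFinset]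
    constructor
    · rintro ⟨a, b⟩
      obtain ⟨u, rfl⟩ := Sym2.mem_iff_exists.1 b
      exact ⟨u, a, rfl⟩
    · rintro ⟨u, a, rfl⟩
      exact ⟨a, by simp⟩
  rw [← sub_eq_iff_eq_add', ← sum_sub_distrib, ← sum_filter_add_sum_filter_not _ (v ∈ ·), e1,
    sum_image fun a _ b _ e => Sym2.congr_right.1 e, sum_eq_zero (s := filter _ _), add_zero]
  · refine sum_congr rfl fun u hu => ?_
    rw [Sym2.map_mk, Sym2.map_mk, h u (G.mem_neighborFinset _ _ |>.1 hu).ne']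
  · intro e he
    rw [Sym2.map_congr (g := φ) fun u hu => h u fun e' => (mem_filter.1 he).2 (e' ▸ hu), sub_self]

lemma switch (M : Finset X) (h0 : ∀ x ∈ M, ∀ y ∈ M, C s(x, y) = 0)
    (hX : Fintype.card V + 8 * p ≤ Fintype.card X)
    (H : Fin (2 * p) × Fin 4 → X) (hH : Function.Injective H)
    (hP : ∀ i, H (i, 0) ∈ M ∧ H (i, 1) ∈ M ∧ H (i, 2) ∈ M ∧
      C s(H (i, 0), H (i, 3)) ≠ C s(H (i, 1), H (i, 3)))
    (g : Fin (2 * p) × Fin 2 → V) (hg : Function.Injective g) (ha : ∀ i, G.Adj (g (i, 0)) (g (i, 1))) :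
    ∃ φ : V → X, Function.Injective φ ∧ ∑ e ∈ G.edgeFinset, C (e.map φ) = 0 := by
  have hp := (Fact.out : p.Prime).pos
  have : Nonempty X := Fintype.card_pos_iff.1 (by omega)
  obtain ⟨ψ, ψ1, ψ2⟩ := injOn_ex (univ : Finset V) (univ.image H)ᶜ (by
    have := card_image_le (s := univ) (f := H)
    simp only [card_univ, Fintype.card_prod, Fintype.card_fin] at this
    rw [card_compl, card_univ]
    omega)
  let sel : Finset (Fin (2 * p)) → Finset (Fin (2 * p)) → Fin (2 * p) × Fin 2 → Fin 4 :=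
    fun J K q => if q.2 = 0 then (if q.1 ∈ J then 0 else 1) else if q.1 ∈ K then 3 else 2
  let φ : Finset (Fin (2 * p)) → Finset (Fin (2 * p)) → V → X := fun J K =>
    Function.extend g (fun q => H (q.1, sel J K q)) ψ
  have f1 : ∀ J K q, φ J K (g q) = H (q.1, sel J K q) := fun J K q => hg.extend_apply _ _ _
  have f2 : ∀ J K v, (¬ ∃ q, g q = v) → φ J K v = ψ v := fun J K v h =>
    Function.extend_apply' _ _ _ h
  have inj : ∀ J K, Function.Injective (φ J K) := by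
    intro J K u v e
    by_cases a : ∃ q, g q = u <;> by_cases b : ∃ q, g q = v
    · obtain ⟨⟨i, s⟩, rfl⟩ := a
      obtain ⟨⟨j, t⟩, rfl⟩ := b
      rw [f1, f1] at e
      obtain ⟨rfl, e2⟩ := Prod.mk.inj (hH e)
      congr 2
      fin_cases s <;> fin_cases t <;> simp [sel] at e2 ⊢ <;> split_ifs at e2 <;> simp at e2
    · obtain ⟨q, rfl⟩ := a
      rw [f1, f2 _ _ _ b] at e
      exact absurd (mem_image.2 ⟨_, mem_univ _, e⟩) (mem_compl.1 (ψ1 v (mem_univ _)))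
    · obtain ⟨q, rfl⟩ := b
      rw [f1, f2 _ _ _ a] at e
      exact absurd (mem_image.2 ⟨_, mem_univ _, e.symm⟩) (mem_compl.1 (ψ1 u (mem_univ _)))
    · rw [f2 _ _ _ a, f2 _ _ _ b] at e
      exact ψ2 (mem_univ u) (mem_univ v) e
  let δ : Fin (2 * p) → X → ZMod p := fun i z => C s(H (i, 0), z) - C s(H (i, 1), z)
  have δ0 : ∀ i, ∀ z ∈ M, δ i z = 0 := fun i z hz => by
    simp only [δ, h0 _ (hP i).1 _ hz, h0 _ (hP i).2.1 _ hz, sub_self]
  let D : Fin (2 * p) → Finset (Fin (2 * p)) → ZMod p := fun i K =>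
    ∑ u ∈ G.neighborFinset (g (i, 0)), δ i (φ ∅ K u)
  have same : ∀ J K J' K' (q : Fin (2 * p) × Fin 2),
      (∀ q', q' ≠ q → sel J' K' q' = sel J K q') → ∀ u, u ≠ g q → φ J' K' u = φ J K u := by
    intro J K J' K' q h u hu
    by_cases a : ∃ q, g q = u
    · obtain ⟨q', rfl⟩ := a
      rw [f1, f1, h q' fun e => hu (e ▸ rfl)]
    · rw [f2 _ _ _ a, f2 _ _ _ a]
  obtain ⟨K, hK⟩ := half D (fun i K hi e => by
    have m : g (i, 1) ∈ G.neighborFinset (g (i, 0)) := (G.mem_neighborFinset _ _).2 (ha i)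
    simp only [D] at e
    rw [← add_sum_erase _ _ m, ← add_sum_erase _ _ m, sum_congr rfl fun u hu => congrArg (δ i)
      (same ∅ K ∅ (insert i K) (i, 1) (fun ⟨j, t⟩ hq => by
        fin_cases t <;> simp [sel] at hq ⊢; simp [hq]) u (ne_of_mem_erase hu)),
      add_left_inj, f1, f1] at e
    simp only [sel, mem_insert_self, hi, if_true, if_false, one_ne_zero] at e
    rw [δ0 i _ (hP i).2.2.1] at e
    exact (hP i).2.2.2 (sub_eq_zero.1 e))
  have tot : ∀ J, ∑ e ∈ G.edgeFinset, C (e.map (φ J K)) =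
      ∑ e ∈ G.edgeFinset, C (e.map (φ ∅ K)) + ∑ i ∈ J, D i K := by
    intro J
    induction J using Finset.induction_on with
    | empty => simp
    | insert i J hi ih =>
      rw [flip G C (φ J K) _ (g (i, 0)) (same J K (insert i J) K (i, 0) fun ⟨j, t⟩ hq => by
        fin_cases t <;> simp [sel] at hq ⊢; simp [hq]), ih, sum_insert hi, add_assoc,
        add_comm (D i K), f1, f1]
      simp only [sel, mem_insert_self, hi, if_true, if_false]
      congr 2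
      refine sum_congr rfl fun u _ => ?_
      change δ i (φ J K u) = δ i (φ ∅ K u)
      by_cases a : ∃ q, g q = u
      · obtain ⟨⟨j, t⟩, rfl⟩ := a
        rw [f1, f1]
        fin_cases t
        · rw [δ0, δ0] <;> simp only [sel] <;> split_ifs <;> simp_all
        · rfl
      · rw [f2 _ _ _ a, f2 _ _ _ a]
  have s := sums (fun i => D i K) (univ.filter fun i => D i K ≠ 0) fun i hi => (mem_filter.1 hi).2
  rw [Fintype.card_fin] at hK
  have := eq_univ_of_card _ (le_antisymm (card_le_univ _) (by rw [ZMod.card]; omega) :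
    ((univ.filter fun i => D i K ≠ 0).powerset.image fun J => ∑ i ∈ J, D i K).card = _)
  obtain ⟨J, -, hJ⟩ := mem_image.1 (this ▸ mem_univ (-∑ e ∈ G.edgeFinset, C (e.map (φ ∅ K))))
  exact ⟨φ J K, inj J K, by rw [tot, hJ, add_neg_cancel]⟩

lemma core (M : Finset X) (hM : M.card = 12 * p) (h0 : ∀ x ∈ M, ∀ y ∈ M, C s(x, y) = 0)
    (hX : Fintype.card V + 20 * p ≤ Fintype.card X) :
    ∃ φ : V → X, Function.Injective φ ∧ ∑ e ∈ G.edgeFinset, C (e.map φ) = 0 := by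
  have hp := (Fact.out : p.Prime).two_le
  rcases pack 2 (2 * p) (fun h : Fin 2 → V => G.Adj (h 0) (h 1)) with ⟨g, hg, ha⟩ | ⟨T, hT, h⟩
  · rcases pack 4 (2 * p) (fun h : Fin 4 → X => h 0 ∈ M ∧ h 1 ∈ M ∧ h 2 ∈ M ∧
      C s(h 0, h 3) ≠ C s(h 1, h 3)) with ⟨H, hH, hP⟩ | ⟨W, hW, h⟩
    · exact switch G C M h0 (by omega) H hH hP g hg ha
    have c1 := le_card_sdiff W M
    have c2 := card_union_le M W
    refine neutral G C ∅ (M \ W) (M ∪ W)ᶜ (by simp only [card_empty]; omega)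
      (by rw [card_compl]; omega) (disjoint_left.2 fun x a b => ?_)
      (fun x a y b => h0 x (mem_sdiff.1 a).1 y (mem_sdiff.1 b).1) (Or.inr fun z hz x hx y hy => ?_)
    · exact mem_compl.1 b (mem_union_left _ (mem_sdiff.1 a).1)
    by_contra hn
    have xy : x ≠ y := by rintro rfl; exact hn rfl
    obtain ⟨w, hw, hw'⟩ := exists_mem_notMem_of_card_lt_card (s := {x, y}) (t := M \ W)
      (card_le_two.trans_lt (by omega))
    simp only [mem_compl, mem_union, mem_sdiff, not_or, mem_insert, mem_singleton] at hz hx hy hw hw'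
    obtain ⟨j, hj⟩ := h ![x, y, w, z] (by
      have : [x, y, w, z].Nodup := by simp; grind
      intro a b e
      refine List.nodup_iff_injective_get.1 this (a₁ := a) (a₂ := b) ?_
      fin_cases a <;> fin_cases b <;> exact e) ⟨hx.1, hy.1, hw.1, hn⟩
    fin_cases j
    exacts [hx.2 hj, hy.2 hj, hw.2 hj, hz.2 hj]
  · refine neutral G C T M Mᶜ (by omega) (by rw [card_compl]; omega) disjoint_compl_right h0
      (Or.inl fun u v a => ?_)
    obtain ⟨j, hj⟩ := h ![u, v] (by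
      intro s t e
      fin_cases s <;> fin_cases t <;> simp_all) a
    fin_cases j
    exacts [Or.inl hj, Or.inr hj]

theorem main (p : ℕ) (hp : p.Prime) : ∃ c : ℕ, ∀ n : ℕ, ∀ G : SimpleGraph (Fin n),
      ∀ [DecidableRel G.Adj], p ∣ G.edgeFinset.card →
        ∀ f : Sym2 (Fin (n + c)) → ZMod p,
          ∃ φ : Fin n ↪ Fin (n + c),
            ∑ e ∈ G.edgeFinset, f (Sym2.map φ e) = 0 := by
  have := Fact.mk hp
  obtain ⟨N, hN⟩ := ramsey (ZMod p) (12 * p)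
  refine ⟨N + 20 * p, fun n G _ hd f => ?_⟩
  obtain ⟨M, hM, a, ha⟩ := hN _ f (by simp; omega)
  obtain ⟨φ, i, h⟩ := core G (fun e => if e.IsDiag then 0 else f e - a) M hM (fun x hx y hy => by
    by_cases e : x = y
    · simp [e]
    · simp [e, ha x hx y hy e]) (by simp)
  refine ⟨⟨φ, i⟩, ?_⟩
  rw [sum_congr rfl (g := fun e => f (e.map φ) - a) fun e he => if_neg fun hd =>
    G.not_isDiag_of_mem_edgeSet (SimpleGraph.mem_edgeFinset.1 he) ((Sym2.isDiag_map i).1 hd),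
    sum_sub_distrib, sum_const, nsmul_eq_mul, (CharP.cast_eq_zero_iff (ZMod p) p _).2 hd,
    zero_mul, sub_zero] at h
  exact h

end Pool.Agent.H.MP_73989e_co
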